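import Mathlib

/-! Basic facts on one-sided subshifts over a discrete alphabet. -/

namespace Pool.Agent.X194.Seq

open Set Topology Filter

variable {A : Type*} [TopologicalSpace A] [DiscreteTopology A]

/-- cylinder -/
def Cyl (N : ℕ) (x : ℕ → A) : Set (ℕ → A) := {y | ∀ i < N, y i = x i}

lemma isOpen_Cyl (N : ℕ) (x : ℕ → A) : IsOpen (Cyl N x) :=
  PiNat.isOpen_cylinder (fun _ => A) x N

lemma nhds_basis_Cyl (x : ℕ → A) : (𝓝 x).HasBasis (fun _ : ℕ => True) (fun N => Cyl N x) := by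
  refine ⟨fun s => ?_⟩
  constructor
  · intro hs
    obtain ⟨t, ht, hxt, hts⟩ :=
      (PiNat.isTopologicalBasis_cylinders (fun _ : ℕ => A)).mem_nhds_iff.1 hs
    obtain ⟨y, n, rfl⟩ := ht
    refine ⟨n, trivial, fun z hz => hts ?_⟩
    rw [PiNat.mem_cylinder_iff] at hxt ⊢
    intro i hi
    rw [← hxt i hi]; exact hz i hi
  · rintro ⟨n, -, hn⟩
    exact mem_of_superset ((isOpen_Cyl n x).mem_nhds (fun i _ => rfl)) hn

/-- cylinder in a subshift -/
def CylS {S : Set (ℕ → A)} (N : ℕ) (x : S) : Set S := {y | ∀ i < N, y.1 i = x.1 i}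

lemma nhds_basis_CylS {S : Set (ℕ → A)} (x : S) :
    (𝓝 x).HasBasis (fun _ : ℕ => True) (fun N => CylS N x) := by
  rw [nhds_subtype_eq_comap]
  exact (nhds_basis_Cyl x.1).comap _

lemma isOpen_coord {S : Set (ℕ → A)} (i : ℕ) (s : Set A) : IsOpen {y : S | y.1 i ∈ s} :=
  (isOpen_discrete s).preimage ((continuous_apply i).comp continuous_subtype_val)

lemma isClosed_coord {S : Set (ℕ → A)} (i : ℕ) (s : Set A) : IsClosed {y : S | y.1 i ∈ s} :=
  (isClosed_discrete s).preimage ((continuous_apply i).comp continuous_subtype_val)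

/-- shift map -/
def sh {S : Set (ℕ → A)} (hS : ∀ x ∈ S, (fun n => x (n + 1)) ∈ S) (x : S) : S :=
  ⟨fun n => x.1 (n + 1), hS x.1 x.2⟩

omit [TopologicalSpace A] [DiscreteTopology A] in
lemma sh_iter {S : Set (ℕ → A)} (hS : ∀ x ∈ S, (fun n => x (n + 1)) ∈ S) (k : ℕ) (x : S) (i : ℕ) :
    ((sh hS)^[k] x).1 i = x.1 (i + k) := by
  induction k generalizing x with
  | zero => rfl
  | succ k ih =>
    rw [Function.iterate_succ, Function.comp_apply, ih]
    simp only [sh]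
    congr 1

omit [DiscreteTopology A] in
lemma continuous_sh {S : Set (ℕ → A)} (hS : ∀ x ∈ S, (fun n => x (n + 1)) ∈ S) :
    Continuous (sh hS) := by
  refine Continuous.subtype_mk ?_ _
  exact continuous_pi fun n => (continuous_apply (n + 1)).comp continuous_subtype_val

/-- neighbourhood in a product of two subshift points -/
lemma exists_N_prod {S : Set (ℕ → A)} {W : Set (S × S)} (hW : IsOpen W) {a b : S}
    (h : (a, b) ∈ W) : ∃ N : ℕ, ∀ a' b' : S, (∀ i < N, a'.1 i = a.1 i) →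
      (∀ i < N, b'.1 i = b.1 i) → (a', b') ∈ W := by
  have h1 : W ∈ 𝓝 (a, b) := hW.mem_nhds h
  rw [nhds_prod_eq] at h1
  obtain ⟨⟨n, m⟩, -, hnm⟩ := ((nhds_basis_CylS a).prod (nhds_basis_CylS b)).mem_iff.1 h1
  refine ⟨max n m, fun a' b' ha hb => hnm ⟨fun i hi => ha i (lt_of_lt_of_le hi (le_max_left _ _)),
    fun i hi => hb i (lt_of_lt_of_le hi (le_max_right _ _))⟩⟩

lemma exists_N {S : Set (ℕ → A)} {W : Set S} (hW : IsOpen W) {a : S}
    (h : a ∈ W) : ∃ N : ℕ, ∀ a' : S, (∀ i < N, a'.1 i = a.1 i) → a' ∈ W := by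
  obtain ⟨n, -, hn⟩ := (nhds_basis_CylS a).mem_iff.1 (hW.mem_nhds h)
  exact ⟨n, fun a' ha => hn ha⟩

end Pool.Agent.X194.Seq
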