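import Mathlib
import Pool.Agent.X194.Seq

/-! Spacing shifts (one-sided). -/

namespace Pool.Agent.X194.Spacing

open Set Topology Filter Pool.Agent.X194.Seq

variable (P : ℕ → Prop)

/-- spacing shift of `P` -/
def Om : Set (ℕ → Bool) := {x | ∀ i j, i < j → x i = true → x j = true → P (j - i)}

lemma Om_shift : ∀ x ∈ Om P, (fun n => x (n + 1)) ∈ Om P := by
  intro x hx i j hij h1 h2
  have := hx (i + 1) (j + 1) (by omega) h1 h2
  have h3 : j + 1 - (i + 1) = j - i := by omega
  rwa [h3] at this

lemma Om_closed : IsClosed (Om P) := by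
  have : Om P = ⋂ i : ℕ, ⋂ j : ℕ, {x | i < j → x i = true → x j = true → P (j - i)} := by
    ext x; simp [Om]
  rw [this]
  refine isClosed_iInter fun i => isClosed_iInter fun j => ?_
  have h1 : Continuous fun x : ℕ → Bool => (x i, x j) :=
    (continuous_apply i).prodMk (continuous_apply j)
  have h2 : {x : ℕ → Bool | i < j → x i = true → x j = true → P (j - i)} =
      (fun x : ℕ → Bool => (x i, x j)) ⁻¹' {p | i < j → p.1 = true → p.2 = true → P (j - i)} := rfl
  rw [h2]
  exact (isClosed_discrete _).preimage h1

variable {P}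

lemma glue {p q : ℕ → Bool} (hp : p ∈ Om P) (hq : q ∈ Om P) {N n : ℕ} (hN : N ≤ n)
    (hn : ∀ m, n ≤ m + N → m ≤ n + N → P m) :
    ∃ r ∈ Om P, (∀ i < N, r i = p i) ∧ ∀ i < N, r (i + n) = q i := by
  refine ⟨fun i => if i < N then p i else if i < n then false else
    if i < n + N then q (i - n) else false, ?_, ?_, ?_⟩
  · intro i j hij h1 h2
    by_cases hi : i < N
    · by_cases hj : j < N
      · simp only [hi, hj, if_true] at h1 h2
        exact hp i j hij h1 h2
      · by_cases hj2 : j < n
        · simp [hj, hj2] at h2
        · by_cases hj3 : j < n + N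
          · exact hn _ (by omega) (by omega)
          · simp [hj, hj2, hj3] at h2
    · by_cases hi2 : i < n
      · simp [hi, hi2] at h1
      · by_cases hj3 : j < n + N
        · have hi3 : i < n + N := by omega
          have hj : ¬ j < N := by omega
          have hj2 : ¬ j < n := by omega
          simp only [hi, hi2, hi3, hj, hj2, hj3, if_true, if_false] at h1 h2
          have := hq (i - n) (j - n) (by omega) h1 h2
          have h3 : j - n - (i - n) = j - i := by omega
          rwa [h3] at this
        · have hj : ¬ j < N := by omega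
          have hj2 : ¬ j < n := by omega
          simp [hj, hj2, hj3] at h2
  · intro i hi
    simp [hi]
  · intro i hi
    have h1 : ¬ i + n < N := by omega
    have h2 : ¬ i + n < n := by omega
    have h3 : i + n < n + N := by omega
    simp only [h1, h2, h3, if_true, if_false]
    congr 1
    omega

/-- truncation of a point of `Om P` -/
lemma trunc_mem {x : ℕ → Bool} (hx : x ∈ Om P) (L : ℕ) :
    (fun i => decide (i < L) && x i) ∈ Om P := by
  intro i j hij h1 h2
  simp only [Bool.and_eq_true, decide_eq_true_eq] at h1 h2
  exact hx i j hij h1.2 h2.2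

/-- truncation plus one extra symbol -/
lemma trunc_add_mem {x : ℕ → Bool} (hx : x ∈ Om P) (L q : ℕ) (hq : L ≤ q)
    (h : ∀ i < L, x i = true → P (q - i)) :
    (fun i => (decide (i < L) && x i) || decide (i = q)) ∈ Om P := by
  intro i j hij h1 h2
  simp only [Bool.and_eq_true, Bool.or_eq_true, decide_eq_true_eq] at h1 h2
  rcases h1 with ⟨h1, h1'⟩ | h1
  · rcases h2 with ⟨h2, h2'⟩ | h2
    · exact hx i j hij h1' h2'
    · subst h2; exact h i h1 h1'
  · rcases h2 with ⟨h2, h2'⟩ | h2
    · omega
    · omega

/-- the shift on `Om P` -/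
abbrev T (P : ℕ → Prop) : Om P → Om P := sh (Om_shift P)

lemma surj_T : Function.Surjective (T P) := by
  intro y
  refine ⟨⟨fun n => if n = 0 then false else y.1 (n - 1), ?_⟩, ?_⟩
  · intro i j hij h1 h2
    by_cases hi : i = 0
    · simp [hi] at h1
    · have hj : j ≠ 0 := by omega
      simp only [hi, hj, if_false] at h1 h2
      have := y.2 (i - 1) (j - 1) (by omega) h1 h2
      have h3 : j - 1 - (i - 1) = j - i := by omega
      rwa [h3] at this
  · apply Subtype.ext
    funext n
    simp [sh]

end Pool.Agent.X194.Spacing
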