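import Mathlib

/-! Minimal sets, and a set of hitting times with prescribed gaps valid for a minimal system. -/

namespace Pool.Agent.X194.MinSet

open Set Topology Filter

universe u

variable {P : Type u} [TopologicalSpace P] [CompactSpace P]

/-- minimal closed invariant subsets exist inside nonempty closed invariant sets. -/
theorem exists_minimal (S : P → P) (C : Set P) (hC : IsClosed C) (hne : C.Nonempty)
    (hinv : MapsTo S C C) :
    ∃ W : Set P, IsClosed W ∧ W.Nonempty ∧ MapsTo S W W ∧ W ⊆ C ∧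
      ∀ V : Set P, IsClosed V → V.Nonempty → MapsTo S V V → V ⊆ W → V = W := by
  have key := zorn_superset_nonempty
    {W : Set P | IsClosed W ∧ W.Nonempty ∧ MapsTo S W W} ?_ C ⟨hC, hne, hinv⟩
  · obtain ⟨W, hWC, hW⟩ := key
    refine ⟨W, hW.prop.1, hW.prop.2.1, hW.prop.2.2, hWC, ?_⟩
    intro V h1 h2 h3 h4
    exact Subset.antisymm h4 (hW.le_of_le ⟨h1, h2, h3⟩ h4)
  · intro c hc hchain hcne
    refine ⟨⋂₀ c, ⟨isClosed_sInter (fun s hs => (hc hs).1), ?_, ?_⟩, fun s hs => sInter_subset_of_mem hs⟩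
    · have : Nonempty c := hcne.to_subtype
      apply IsCompact.nonempty_sInter_of_directed_nonempty_isCompact_isClosed
      · intro a ha b hb
        rcases hchain.total ha hb with h | h
        · exact ⟨a, ha, Subset.rfl, h⟩
        · exact ⟨b, hb, h, Subset.rfl⟩
      · exact fun s hs => (hc hs).2.1
      · exact fun s hs => (hc hs).1.isCompact
      · exact fun s hs => (hc hs).1
    · intro x hx s hs
      exact (hc hs).2.2 (hx s hs)

/-- In a minimal set every open set meeting it is hit by every orbit in bounded time. -/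
theorem exists_bound {S : P → P} (hS : Continuous S) {W : Set P} (hWc : IsClosed W)
    (hWi : MapsTo S W W)
    (hmin : ∀ V : Set P, IsClosed V → V.Nonempty → MapsTo S V V → V ⊆ W → V = W)
    {O : Set P} (hO : IsOpen O) (hne : (W ∩ O).Nonempty) :
    ∃ N : ℕ, ∀ w ∈ W, ∃ j ≤ N, S^[j] w ∈ O := by
  have h1 : W ⊆ ⋃ j : ℕ, (S^[j]) ⁻¹' O := by
    intro w hw
    by_contra hcon
    -- the closed invariant set of points of `W` never visiting `O`
    let V : Set P := W ∩ ⋂ j : ℕ, (S^[j]) ⁻¹' Oᶜ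
    have hV : V = W := hmin V
      (hWc.inter (isClosed_iInter fun j => hO.isClosed_compl.preimage (hS.iterate j)))
      ⟨w, hw, mem_iInter.2 fun j hj => hcon (mem_iUnion.2 ⟨j, hj⟩)⟩
      (fun z hz => ⟨hWi hz.1, mem_iInter.2 fun j => by
        have := mem_iInter.1 hz.2 (j + 1)
        simpa [Function.iterate_succ_apply] using this⟩)
      inter_subset_left
    obtain ⟨z, hzW, hzO⟩ := hne
    rw [← hV] at hzW
    exact mem_iInter.1 hzW.2 0 hzO
  obtain ⟨t, ht⟩ := hWc.isCompact.elim_finite_subcover _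
    (fun j => hO.preimage (hS.iterate j)) h1
  refine ⟨t.sup id, fun w hw => ?_⟩
  obtain ⟨j, hj⟩ := mem_iUnion.1 (ht hw)
  obtain ⟨hjt, hjO⟩ := mem_iUnion.1 hj
  exact ⟨j, Finset.le_sup (f := id) hjt, hjO⟩

/-- The hitting set. -/
def Cs (k N : ℕ) : Set ℕ := {c | ∃ r < k, ∃ j ≤ N, c = r * (k * (N + 1) + 1) + k * j}

lemma Cs_gap {k N c c' : ℕ} (hc : c ∈ Cs k N) (hc' : c' ∈ Cs k N) (h : c < c') : c + k ≤ c' := by
  obtain ⟨r, hr, j, hj, rfl⟩ := hc
  obtain ⟨r', hr', j', hj', rfl⟩ := hc'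
  rcases lt_trichotomy r r' with h1 | h1 | h1
  · have h2 : (r + 1) * (k * (N + 1) + 1) ≤ r' * (k * (N + 1) + 1) :=
      Nat.mul_le_mul_right _ h1
    have h3 : k * j ≤ k * N := Nat.mul_le_mul_left _ hj
    have h4 : k * (N + 1) = k * N + k := by ring
    have h5 : (r + 1) * (k * (N + 1) + 1) = r * (k * (N + 1) + 1) + (k * (N + 1) + 1) := by ring
    omega
  · subst h1
    have h2 : k * j < k * j' := by omega
    have h3 : j < j' := lt_of_mul_lt_mul_left h2 (Nat.zero_le k)
    have h4 : k * (j + 1) ≤ k * j' := Nat.mul_le_mul_left _ h3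
    have h5 : k * (j + 1) = k * j + k := by ring
    omega
  · exfalso
    have h2 : (r' + 1) * (k * (N + 1) + 1) ≤ r * (k * (N + 1) + 1) :=
      Nat.mul_le_mul_right _ h1
    have h3 : k * j' ≤ k * N := Nat.mul_le_mul_left _ hj'
    have h4 : k * (N + 1) = k * N + k := by ring
    have h5 : (r' + 1) * (k * (N + 1) + 1) = r' * (k * (N + 1) + 1) + (k * (N + 1) + 1) := by ring
    omega

/-- For a minimal system, a nonempty open set `O` and `k ≥ 1` there is `N` such that every orbit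
hits `O` at a time in `Cs k N`. -/
theorem exists_hit [T2Space P] {S : P → P} (hS : Continuous S)
    (hmin : ∀ A : Set P, IsClosed A → A.Nonempty → MapsTo S A A → A = univ)
    {O : Set P} (hO : IsOpen O) (hne : O.Nonempty) {k : ℕ} (hk : 0 < k) :
    ∃ N : ℕ, ∀ y : P, ∃ c ∈ Cs k N, S^[c] y ∈ O := by
  obtain ⟨v, hv⟩ := hne
  obtain ⟨W, hWc, hWne, hWi, -, hWmin⟩ := exists_minimal (S^[k]) univ isClosed_univ ⟨v, mem_univ _⟩
    (mapsTo_univ _ _)
  have hSk : Continuous (S^[k]) := hS.iterate k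
  -- `S^[k] '' W = W`
  have himg : S^[k] '' W = W := hWmin _ (hWc.isCompact.image hSk).isClosed (hWne.image _)
    (by
      rintro _ ⟨w, hw, rfl⟩
      exact ⟨S^[k] w, hWi hw, rfl⟩)
    (by
      rintro _ ⟨w, hw, rfl⟩
      exact hWi hw)
  -- the images cover
  have hcov : (⋃ l ∈ Finset.range k, S^[l] '' W) = univ := by
    refine hmin _ ?_ ?_ ?_
    · exact (Finset.range k).finite_toSet.isClosed_biUnion fun l _ =>
        (hWc.isCompact.image (hS.iterate l)).isClosed
    · obtain ⟨w, hw⟩ := hWne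
      exact ⟨w, mem_iUnion₂.2 ⟨0, Finset.mem_range.2 hk, w, hw, rfl⟩⟩
    · intro z hz
      obtain ⟨l, hl, w, hw, rfl⟩ := mem_iUnion₂.1 hz
      rw [Finset.mem_range] at hl
      rcases Nat.lt_or_ge (l + 1) k with h | h
      · refine mem_iUnion₂.2 ⟨l + 1, Finset.mem_range.2 h, w, hw, ?_⟩
        rw [Function.iterate_succ_apply']
      · refine mem_iUnion₂.2 ⟨0, Finset.mem_range.2 hk, S^[k] w, hWi hw, ?_⟩
        have : k = l + 1 := by omega
        rw [this, Function.iterate_zero, id, Function.iterate_succ_apply']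
  have hall : ∀ y : P, ∃ l < k, ∃ w ∈ W, S^[l] w = y := by
    intro y
    have : y ∈ (⋃ l ∈ Finset.range k, S^[l] '' W) := by rw [hcov]; trivial
    obtain ⟨l, hl, w, hw, h⟩ := mem_iUnion₂.1 this
    exact ⟨l, Finset.mem_range.1 hl, w, hw, h⟩
  obtain ⟨i, hi, m, hm, him⟩ := hall v
  obtain ⟨N, hN⟩ := exists_bound hSk hWc hWi hWmin (O := S^[i] ⁻¹' O)
    (hO.preimage (hS.iterate i)) ⟨m, hm, by rw [mem_preimage, him]; exact hv⟩
  refine ⟨N, fun y => ?_⟩
  obtain ⟨l, hl, m₁, hm₁, rfl⟩ := hall y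
  set A := k * (N + 1) + 1 with hA
  obtain ⟨r, hr, q, hq⟩ : ∃ r < k, ∃ q, r * A + l = i + k * q := by
    rcases Nat.lt_or_ge i l with h | h
    · refine ⟨i + k - l, by omega, 1 + (i + k - l) * (N + 1), ?_⟩
      have h1 : (i + k - l) * A = k * ((i + k - l) * (N + 1)) + (i + k - l) := by
        rw [hA]; ring
      have h2 : k * (1 + (i + k - l) * (N + 1)) = k + k * ((i + k - l) * (N + 1)) := by ring
      rw [h1, h2]
      omega
    · refine ⟨i - l, by omega, (i - l) * (N + 1), ?_⟩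
      have h1 : (i - l) * A = k * ((i - l) * (N + 1)) + (i - l) := by
        rw [hA]; ring
      rw [h1]
      omega
  have hWq : ∀ q : ℕ, ∀ w ∈ W, S^[k * q] w ∈ W := by
    intro q
    induction q with
    | zero => intro w hw; simpa using hw
    | succ q ih =>
      intro w hw
      rw [Nat.mul_succ, Nat.add_comm, Function.iterate_add_apply]
      exact hWi (ih w hw)
  obtain ⟨j, hj, hjO⟩ := hN (S^[k * q] m₁) (hWq q m₁ hm₁)
  refine ⟨r * A + k * j, ⟨r, hr, j, hj, rfl⟩, ?_⟩
  have h3 : S^[r * A + k * j] (S^[l] m₁) = S^[i] ((S^[k])^[j] (S^[k * q] m₁)) := by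
    rw [← Function.iterate_mul, ← Function.iterate_add_apply, ← Function.iterate_add_apply,
      ← Function.iterate_add_apply]
    have : r * A + k * j + l = i + k * j + k * q := by omega
    rw [this]
  rw [h3]
  exact hjO

end Pool.Agent.X194.MinSet
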